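import Pool.Agent.K7.H24.CentroidTrans

set_option autoImplicit false
open Finset

/-!
# Every simple polygon can be carried to a regular polygon by vertex-centroid moves

The plane is `ℂ`; a polygon with `n` vertices is a map `v : ZMod n → ℂ`. The centroid
`vertexCentroid v` and the relation `Move v v'` (one vertex-centroid move) are defined in
`Pool.Agent.K7.H24.Centroid`.
-/

namespace Pool.Agent.Results.MP_06c496_co.VertexCentroid

open Pool.Agent.K7.H24.Centroid

/-- `v` is a simple polygon: its vertices are distinct, and two different sides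
`[v i, v (i + 1)]`, `[v j, v (j + 1)]` have no common point besides common endpoints. -/
def IsSimplePolygon {n : ℕ} (v : ZMod n → ℂ) : Prop :=
  Function.Injective v ∧ ∀ i j : ZMod n, i ≠ j →
    segment ℝ (v i) (v (i + 1)) ∩ segment ℝ (v j) (v (j + 1)) ⊆
      ({v i, v (i + 1)} ∩ {v j, v (j + 1)} : Set ℂ)

/-- `v` is a regular polygon: up to a similarity, `v i` is the `i`-th vertex of the standard
regular `n`-gon, in anticlockwise or in clockwise order. -/
def IsRegularPolygon {n : ℕ} (v : ZMod n → ℂ) : Prop :=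
  ∃ c a : ℂ, a ≠ 0 ∧
    ((∀ i, v i = c + a * Complex.exp (2 * Real.pi * Complex.I * (i.val : ℂ) / n)) ∨
      (∀ i, v i = c + a * Complex.exp (-(2 * Real.pi * Complex.I * (i.val : ℂ) / n))))

theorem exists_det {n : ℕ} [NeZero n] (hn : 3 ≤ n) {v : ZMod n → ℂ} (hv : IsSimplePolygon v) :
    ∃ i j : ZMod n, det (v i - vertexCentroid v) (v j - vertexCentroid v) ≠ 0 := by
  by_contra hcon
  push Not at hcon
  set m := vertexCentroid v with hm
  have hnt : Nontrivial (ZMod n) := ZMod.nontrivial_iff.2 (by omega)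
  -- a vertex different from the centroid
  obtain ⟨i₀, hi₀⟩ : ∃ i, v i ≠ m := by
    by_contra h
    push Not at h
    exact one_ne_zero (hv.1 ((h 1).trans (h 0).symm) : (1 : ZMod n) = 0)
  set d : ℂ := v i₀ - m with hd
  have hd0 : d ≠ 0 := sub_ne_zero.2 hi₀
  have hnd : 0 < d.re ^ 2 + d.im ^ 2 := by
    by_contra h
    apply hd0
    have h1 : d.re = 0 := by nlinarith [sq_nonneg d.re, sq_nonneg d.im]
    have h2 : d.im = 0 := by nlinarith [sq_nonneg d.re, sq_nonneg d.im]
    exact Complex.ext h1 h2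
  have ht : ∀ j, ∃ t : ℝ, v j = m + t * d := by
    intro j
    have h := hcon i₀ j
    rw [← hd] at h
    unfold det at h
    refine ⟨(d.re * (v j - m).re + d.im * (v j - m).im) / (d.re ^ 2 + d.im ^ 2), ?_⟩
    have h2 : v j - m = (((d.re * (v j - m).re + d.im * (v j - m).im) /
        (d.re ^ 2 + d.im ^ 2) : ℝ) : ℂ) * d := by
      generalize v j - m = z at h
      apply Complex.ext
      · rw [Complex.mul_re, Complex.ofReal_re, Complex.ofReal_im, zero_mul, sub_zero,
          div_mul_eq_mul_div, eq_div_iff hnd.ne']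
        linear_combination (-d.im) * h
      · rw [Complex.mul_im, Complex.ofReal_re, Complex.ofReal_im, zero_mul, add_zero,
          div_mul_eq_mul_div, eq_div_iff hnd.ne']
        linear_combination d.re * h
    rw [← h2]; ring
  choose t ht using ht
  have htinj : Function.Injective t := by
    intro a b hab
    apply hv.1
    rw [ht a, ht b, hab]
  obtain ⟨i, hi⟩ := Finite.exists_max t
  have h1 : i + 1 ≠ i := by
    intro h
    exact one_ne_zero (left_eq_add.1 h.symm)
  have h2 : i - 1 ≠ i := by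
    intro h
    exact one_ne_zero (sub_eq_self.1 h)
  have h3 : i + 1 ≠ i - 1 := by
    intro h
    have h4 : (2 : ZMod n) = 0 := by linear_combination h
    have h5 : ((2 : ℕ) : ZMod n) = 0 := by exact_mod_cast h4
    rw [ZMod.natCast_eq_zero_iff] at h5
    exact absurd (Nat.le_of_dvd (by norm_num) h5) (by omega)
  have l1 : t (i + 1) < t i := lt_of_le_of_ne (hi _) (fun h => h1 (htinj h))
  have l2 : t (i - 1) < t i := lt_of_le_of_ne (hi _) (fun h => h2 (htinj h))
  -- a point between two others of the line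
  have hseg : ∀ a b c : ZMod n, t a < t b → t b < t c → v b ∈ segment ℝ (v a) (v c) := by
    intro a b c hab hbc
    rw [segment_eq_image_lineMap]
    refine ⟨(t b - t a) / (t c - t a), ⟨by apply div_nonneg <;> linarith, ?_⟩, ?_⟩
    · rw [div_le_one (by linarith)]; linarith
    · rw [AffineMap.lineMap_apply, ht a, ht b, ht c]
      simp only [vsub_eq_sub, vadd_eq_add, Complex.real_smul]
      have h0 : ((t c : ℂ) - t a) ≠ 0 := by
        have : t c - t a ≠ 0 := by linarith
        exact_mod_cast this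
      push_cast
      field_simp
      ring
  have hne : i - 1 ≠ i := h2
  have hsub := hv.2 (i - 1) i hne
  rw [sub_add_cancel] at hsub
  rcases lt_or_gt_of_ne (fun h => h3 (htinj h) : t (i + 1) ≠ t (i - 1)) with h | h
  · -- `v (i - 1)` lies on the side `[v i, v (i + 1)]`
    have h6 : v (i - 1) ∈ segment ℝ (v (i + 1)) (v i) := hseg _ _ _ h l2
    rw [segment_symm] at h6
    have h7 := hsub ⟨left_mem_segment ℝ _ _, h6⟩
    rcases h7.2 with h8 | h8
    · exact h2 (hv.1 h8)
    · exact h3 (hv.1 h8).symm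
  · have h6 : v (i + 1) ∈ segment ℝ (v (i - 1)) (v i) := hseg _ _ _ h l1
    have h7 := hsub ⟨h6, right_mem_segment ℝ _ _⟩
    rcases h7.1 with h8 | h8
    · exact h3 (hv.1 h8)
    · exact h1 (hv.1 h8)

theorem sum_sub_centroid {n : ℕ} [NeZero n] (v : ZMod n → ℂ) : ∑ i, (v i - vertexCentroid v) = 0 := by
  have hn0 : (n : ℂ) ≠ 0 := by exact_mod_cast NeZero.ne n
  rw [Finset.sum_sub_distrib, Finset.sum_const, card_univ, ZMod.card, nsmul_eq_mul]
  unfold vertexCentroid
  field_simp
  ring

theorem sum_exp {n : ℕ} [NeZero n] (hn : 3 ≤ n) :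
    ∑ i : ZMod n, Complex.exp (2 * Real.pi * Complex.I * (i.val : ℂ) / n) = 0 := by
  have hn0 : (n : ℂ) ≠ 0 := by exact_mod_cast NeZero.ne n
  have hp := Complex.isPrimitiveRoot_exp n (by omega : n ≠ 0)
  have h1 := hp.geom_sum_eq_zero (by omega)
  rw [← h1]
  have h2 : ∀ i : ZMod n, Complex.exp (2 * Real.pi * Complex.I * (i.val : ℂ) / n) =
      Complex.exp (2 * Real.pi * Complex.I / n) ^ i.val := by
    intro i
    rw [← Complex.exp_nat_mul]
    congr 1
    ring
  simp only [h2]
  obtain ⟨k, rfl⟩ : ∃ k, n = k + 1 := ⟨n - 1, by omega⟩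
  exact Fin.sum_univ_eq_sum_range
    (fun i => Complex.exp (2 * Real.pi * Complex.I / ((k + 1 : ℕ) : ℂ)) ^ i) (k + 1)

/-- Every simple polygon with `n ≥ 3` vertices can be carried to a regular polygon by a finite
sequence of vertex-centroid moves. -/
theorem result (n : ℕ) [NeZero n] (hn : 3 ≤ n) (v : ZMod n → ℂ) (hv : IsSimplePolygon v) :
    ∃ w : ZMod n → ℂ, IsRegularPolygon w ∧ Relation.ReflTransGen Move v w := by
  obtain ⟨i, j, hij⟩ := exists_det hn hv
  have hn0 : (n : ℝ) ≠ 0 := by exact_mod_cast NeZero.ne n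
  have hv1 : (1 : ZMod n).val = 1 := by
    have : Fact (1 < n) := ⟨by omega⟩
    exact ZMod.val_one n
  have h' : det (Complex.exp (2 * Real.pi * Complex.I * ((0 : ZMod n).val : ℂ) / n))
      (Complex.exp (2 * Real.pi * Complex.I * ((1 : ZMod n).val : ℂ) / n)) ≠ 0 := by
    rw [hv1, ZMod.val_zero]
    have e0 : 2 * (Real.pi : ℂ) * Complex.I * ((0 : ℕ) : ℂ) / n = 0 := by simp
    have e1 : 2 * (Real.pi : ℂ) * Complex.I * ((1 : ℕ) : ℂ) / n =
        ((2 * Real.pi / n : ℝ) : ℂ) * Complex.I := by push_cast; ring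
    rw [e0, e1, Complex.exp_zero]
    unfold det
    rw [Complex.exp_ofReal_mul_I_im, Complex.one_re, Complex.one_im, one_mul, zero_mul, sub_zero]
    apply ne_of_gt
    apply Real.sin_pos_of_pos_of_lt_pi
    · positivity
    · rw [div_lt_iff₀ (by positivity)]
      have : (3 : ℝ) ≤ n := by exact_mod_cast hn
      nlinarith [Real.pi_pos]
  obtain ⟨w, hw, hr⟩ := R_all hn (sum_sub_centroid v) (sum_exp hn) hij h' v (fun _ => rfl)
  refine ⟨w, ⟨vertexCentroid w, 1, one_ne_zero, Or.inl fun k => ?_⟩, hr⟩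
  have hk : w k - vertexCentroid w =
      Complex.exp (2 * Real.pi * Complex.I * (k.val : ℂ) / n) := hw k
  rw [one_mul, ← hk]
  ring

end Pool.Agent.Results.MP_06c496_co.VertexCentroid
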